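import Pool.Agent.MWH.StmtsA
import Pool.Agent.MWS.StmtsA

/-!
# Row ABO of MWH: absorption in a block of the other letter
-/

set_option autoImplicit false

namespace Pool.Agent.MWH.H75

open Pool.Agent.Helper14_MV Pool.Agent.Helper2_MV Pool.Agent.MVO Pool.Agent.MWL Pool.Agent.MWS
open Pool.Agent.MWH

/-- the block `j` with two letters `x` in front -/
def vv (B : ℕ → List ℕ) (j x : ℕ) : ℕ → List ℕ := Function.update B j (x :: x :: B j)

theorem vv_self (B : ℕ → List ℕ) (j x : ℕ) : vv B j x j = x :: x :: B j := by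
  unfold vv
  rw [Function.update_self]

theorem vv_ne (B : ℕ → List ℕ) {j j' : ℕ} (x : ℕ) (h : j' ≠ j) : vv B j x j' = B j' := by
  unfold vv
  rw [Function.update_of_ne h]

theorem vv_count {B B' : ℕ → List ℕ} (hc : ∀ j c, (B j).count c = (B' j).count c) (j x j' c : ℕ) :
    (vv B j x j').count c = (vv B' j x j').count c := by
  by_cases h : j' = j
  · subst h
    rw [vv_self, vv_self, List.count_cons, List.count_cons, List.count_cons, List.count_cons, hc]
  · rw [vv_ne B x h, vv_ne B' x h, hc]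

theorem vv_le (B : ℕ → List ℕ) (j x j' c : ℕ) : (B j').count c ≤ (vv B j x j').count c := by
  by_cases h : j' = j
  · subst h
    rw [vv_self, List.count_cons, List.count_cons]
    omega
  · rw [vv_ne B x h]

theorem vv_ok {k : ℕ} {B : ℕ → List ℕ} (hB : OkB k B) (h2 : ∀ j, ∀ c ∈ B j, c = 0 ∨ c = 1)
    {i j : ℕ} (hi : i ≤ k) (h0 : 0 ∈ B i) (h1 : 1 ∈ B i) {x : ℕ} (hx : x = 0 ∨ x = 1) :
    (∀ j', ∀ c ∈ vv B j x j', c = 0 ∨ c = 1) ∧ OkB k (vv B j x) := by
  have h3 : ∀ j', ∀ c ∈ vv B j x j', c = 0 ∨ c = 1 := by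
    intro j' c hc
    by_cases h : j' = j
    · subst h
      rw [vv_self] at hc
      rcases List.mem_cons.1 hc with rfl | hc
      · exact hx
      · rcases List.mem_cons.1 hc with rfl | hc
        · exact hx
        · exact h2 _ _ hc
    · rw [vv_ne B x h] at hc
      exact h2 _ _ hc
  refine ⟨h3, ?_, ?_⟩
  · intro j' _ c hc h
    rcases h3 j' c hc with h4 | h4 <;> omega
  · intro j' _ c hc
    have hci : c ∈ B i := by
      rcases h3 j' c hc with h4 | h4
      · rw [h4]; exact h0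
      · rw [h4]; exact h1
    have h5 := hB.ml i hi c hci
    refine le_trans h5 ?_
    unfold deg
    exact Finset.sum_le_sum (fun t _ => vv_le B j x t c)

theorem core (hS : Pool.Agent.MWS.SatStmt) (hN : NfeStmt) {β θ : FIC} (hβ : BaseH β) (hle : β ≤ θ) {k : ℕ}
    {B B' : ℕ → List ℕ} (hB : OkB k B) (hB' : OkB k B') (h2 : ∀ j, ∀ c ∈ B j, c = 0 ∨ c = 1)
    (h2' : ∀ j, ∀ c ∈ B' j, c = 0 ∨ c = 1) (hc : ∀ j c, (B j).count c = (B' j).count c)
    {i j : ℕ} (hi : i ≤ k) (hj : j ≤ k) (hji : j ≠ i) (h0 : 0 ∈ B i) (h1 : 1 ∈ B i) {x : ℕ}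
    (hx : x = 0 ∨ x = 1) (hy : ∀ y, (y = 0 ∨ y = 1) → y ≠ x → y ∈ B j) (hxj : x ∉ B j)
    (hab : Ab 1 (FC.ofFIC θ) k (ty B x) j) : RR θ (asm k B) (asm k B') := by
  have hty : ty B x = ty B' x := by
    funext t
    exact hc t x
  have hmem : ∀ t c, c ∈ B t ↔ c ∈ B' t := by
    intro t c
    rw [← List.count_pos_iff, ← List.count_pos_iff, hc]
  have hns : NS k x := by
    intro h
    rcases hx with h4 | h4 <;> omega
  have hxi : x ∈ B i := by
    rcases hx with h4 | h4
    · rw [h4]; exact h0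
    · rw [h4]; exact h1
  have hd : 2 ≤ deg k (ty B x) := hB.ml i hi x hxi
  have e1 : RR θ (asm k B) (asm k (vv B j x)) :=
    hS β θ hβ.toBaseR hβ.itr hle k B hB j hj x hns hd hab [] (B j) rfl (Or.inl hxj)
  have e2 : RR θ (asm k B') (asm k (vv B' j x)) := by
    refine hS β θ hβ.toBaseR hβ.itr hle k B' hB' j hj x hns ?_ ?_ [] (B' j) rfl (Or.inl ?_)
    · rw [← hty]; exact hd
    · rw [← hty]; exact hab
    · rw [← hmem]; exact hxj
  obtain ⟨a1, a2⟩ := vv_ok hB h2 (j := j) hi h0 h1 hx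
  obtain ⟨b1, b2⟩ := vv_ok hB' h2' (j := j) hi ((hmem _ _).1 h0) ((hmem _ _).1 h1) hx
  have e3 : RR β (asm k (vv B j x)) (asm k (vv B' j x)) := by
    refine hN β hβ k _ _ a2 b2 ?_ ?_
    · intro c _ t _
      exact Or.inl (vv_count hc j x t c)
    · intro i' _ y z hyz hy1 hz1 hu
      exfalso
      have hall : ∀ t, (t = i ∨ t = j) → ∀ w, (w = 0 ∨ w = 1) → w ∈ vv B j x t := by
        intro t ht w hw
        rcases ht with rfl | rfl
        · rw [vv_ne B x hji.symm]
          rcases hw with rfl | rfl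
          · exact h0
          · exact h1
        · rw [vv_self]
          by_cases hwx : w = x
          · rw [hwx]; exact List.mem_cons_self
          · exact List.mem_cons_of_mem _ (List.mem_cons_of_mem _ (hy w hw hwx))
      by_cases hii : i' = i
      · have hji' : j ≠ i' := by rw [hii]; exact hji
        rcases hu j hj hji' with h5 | h5
        · exact h5 (hall j (Or.inr rfl) y (a1 _ _ hy1))
        · exact h5 (hall j (Or.inr rfl) z (a1 _ _ hz1))
      · rcases hu i hi (fun h => hii h.symm) with h5 | h5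
        · exact h5 (hall i (Or.inl rfl) y (a1 _ _ hy1))
        · exact h5 (hall i (Or.inl rfl) z (a1 _ _ hz1))
  exact θ.trans e1 (θ.trans (hle _ _ e3) e2.symm)

/-- **ABO** -/
theorem abo (hS : Pool.Agent.MWS.SatStmt) (hN : NfeStmt) (hO : OkwStmt) : AboStmt := by
  intro β θ hβ hle k a b i hv j hj hji hd s s' hs hs'
  obtain ⟨o1, _, o3, o4, _, _⟩ := hO k a b i s hv hs
  obtain ⟨p1, _, p3, p4, _, _⟩ := hO k a b i s' hv hs'
  have hc : ∀ t c, (W a b i s t).count c = (W a b i s' t).count c := by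
    intro t c
    by_cases h0 : c = 0
    · rw [h0, (o3 t).1, (p3 t).1]
    · by_cases h1 : c = 1
      · rw [h1, (o3 t).2, (p3 t).2]
      · rw [List.count_eq_zero.2 (fun h => (o4 t c h).elim h0 h1),
          List.count_eq_zero.2 (fun h => (p4 t c h).elim h0 h1)]
  have m0 : ∀ t, a t ≠ 0 → 0 ∈ W a b i s t := by
    intro t ht
    rw [← List.count_pos_iff, (o3 t).1]
    omega
  have m1 : ∀ t, b t ≠ 0 → 1 ∈ W a b i s t := by
    intro t ht
    rw [← List.count_pos_iff, (o3 t).2]
    omega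
  have t0 : ty (W a b i s) 0 = a := by
    funext t
    exact (o3 t).1
  have t1 : ty (W a b i s) 1 = b := by
    funext t
    exact (o3 t).2
  rcases hd with ⟨hb, hab⟩ | ⟨ha, hab⟩
  · have haj : a j = 0 := (hv.un j hj hji).resolve_right hb
    refine core hS hN hβ hle o1 p1 o4 p4 hc hv.ik hj hji (m0 i hv.ai) (m1 i hv.bi)
      (x := 0) (Or.inl rfl) ?_ ?_ ?_
    · intro y hy hy0
      rcases hy with h | h
      · exact absurd h hy0
      · rw [h]; exact m1 j hb
    · intro h
      rw [← List.count_pos_iff, (o3 j).1] at h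
      omega
    · rw [t0]; exact hab
  · have hbj : b j = 0 := (hv.un j hj hji).resolve_left ha
    refine core hS hN hβ hle o1 p1 o4 p4 hc hv.ik hj hji (m0 i hv.ai) (m1 i hv.bi)
      (x := 1) (Or.inr rfl) ?_ ?_ ?_
    · intro y hy hy1
      rcases hy with h | h
      · rw [h]; exact m0 j ha
      · exact absurd h hy1
    · intro h
      rw [← List.count_pos_iff, (o3 j).2] at h
      omega
    · rw [t1]; exact hab

end Pool.Agent.MWH.H75
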